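import Pool.Agent.R551.YD.Form

/-!
# The algorithm
-/

namespace Pool.Agent.R551.YD

/-- The least entry of a list (`0` for the empty list). -/
def lmin (l : List ℕ) : ℕ := l.foldr min (l.headD 0)

theorem le_foldr_min {l : List ℕ} {t s : ℕ} : t ≤ l.foldr min s ↔ t ≤ s ∧ ∀ x ∈ l, t ≤ x := by
  induction l with
  | nil => simp
  | cons a l ih =>
    rw [List.foldr_cons, le_min_iff, ih]
    simp only [List.mem_cons, forall_eq_or_imp]
    tauto

theorem le_lmin {l : List ℕ} (hl : l ≠ []) {t : ℕ} : t ≤ lmin l ↔ ∀ x ∈ l, t ≤ x := by
  unfold lmin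
  rw [le_foldr_min]
  constructor
  · exact fun h => h.2
  · intro h
    refine ⟨?_, h⟩
    cases l with
    | nil => exact absurd rfl hl
    | cons a l => exact h a (List.mem_cons_self)

theorem lmin_range (a : ℕ) (f : ℕ → ℕ) : lmin ((List.range (a + 1)).map f) = mn a f := by
  have h : ∀ t, t ≤ lmin ((List.range (a + 1)).map f) ↔ t ≤ mn a f := by
    intro t
    rw [le_lmin (by simp), le_mn]
    simp only [List.mem_map, List.mem_range, forall_exists_index, and_imp,
      forall_apply_eq_imp_iff₂]
    exact ⟨fun h i hi => h i (by omega), fun h i hi => h i (by omega)⟩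
  exact Nat.le_antisymm ((h _).1 le_rfl) ((h _).2 le_rfl)

/-- Update of a row of one table, with the other table `T` and the profile `vs`. -/
def updRow (vs : List ℕ) (T : List (List ℕ)) (row : List ℕ) : List ℕ :=
  (List.range vs.length).map fun X => min (row.getD X 0)
    (lmin ((List.range vs.length).map fun x => row.getD x 0 + (T.getD X []).getD (vs.getD x 0) 0))

/-- The table of products. -/
def rmul (l₁ l₂ : List ℕ) : List (List ℕ) :=
  (List.range l₁.length).map fun k => (List.range l₂.length).map fun X => k * X

/-- The first table of constant parts. -/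
def ebase (vs : List ℕ) : List (List ℕ) :=
  (List.range vs.length).map fun p => (List.range vs.length).map fun X =>
    if X ≤ p then 0 else X * vs.getD p 0

/-- The initial state. -/
def base (w : List ℕ × List ℕ) : List (List ℕ) × List (List ℕ) :=
  ((rmul w.2 w.1).map (updRow w.1 (rmul w.1 w.2)) ++ ebase w.1,
    (rmul w.1 w.2).map (updRow w.2 (rmul w.2 w.1)) ++ ebase w.2)

/-- One round of the algorithm. -/
def stepSt (w : List ℕ × List ℕ) (T : List (List ℕ) × List (List ℕ)) :
    List (List ℕ) × List (List ℕ) :=
  (T.1.map (updRow w.1 T.2), T.2.map (updRow w.2 T.1))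

/-- The final table. -/
def outp (w : List ℕ × List ℕ) (T : List (List ℕ) × List (List ℕ)) : List (ℕ × ℕ × ℕ × ℕ) :=
  (List.range w.1.length).flatMap fun p => (List.range w.2.length).map fun q =>
    (p, q, 0, lmin ((List.range w.1.length).map fun x =>
      (T.1.getD (w.2.length + p) []).getD x 0 +
        (T.2.getD (w.1.length + q) []).getD (w.1.getD x 0) 0))

/-- Inputs: the latency `L` in unary, the list of column heights of the zero-set, and `b` in
unary. -/
abbrev Inp : Type := List Unit × List ℕ × List Unit

/-- The two profiles. -/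
def profs (i : Inp) : List ℕ × List ℕ :=
  (i.2.1 ++ [0], (List.range (i.2.2.length + 1)).map fun y =>
    (i.2.1.filter fun t => decide (y < t)).length)

/-- The algorithm. -/
def algo (i : Inp) : List (ℕ × ℕ × ℕ × ℕ) :=
  match i.1 with
  | [] => [(0, 0, 1, 0)]
  | _ :: [] => (List.range (profs i).1.length).map fun x => (x, (profs i).1.getD x 0, 0, 0)
  | _ :: _ :: l => outp (profs i) ((stepSt (profs i))^[l.length] (base (profs i)))

/-- The value for `m` rows and `n` columns: the least of the numbers `m p + n q + m n r + K` for
the entries `(p, q, r, K)` of the table. -/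
def val (l : List (ℕ × ℕ × ℕ × ℕ)) (m n : ℕ) : ℕ :=
  lmin (l.map fun t => m * t.1 + n * t.2.1 + m * n * t.2.2.1 + t.2.2.2)

/-! ### Correctness -/

/-- A table of values. -/
def tab (r c : ℕ) (f : ℕ → ℕ → ℕ) : List (List ℕ) :=
  (List.range r).map fun i => (List.range c).map (f i)

theorem getD_map_range {α : Type} (f : ℕ → α) (d : α) {n i : ℕ} (h : i < n) :
    ((List.range n).map f).getD i d = f i := by
  rw [List.getD_eq_getElem?_getD, List.getElem?_map, List.getElem?_range h]
  rfl

theorem tab_length (r c : ℕ) (f : ℕ → ℕ → ℕ) : (tab r c f).length = r := by simp [tab]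

theorem tab_getD_append {r c i : ℕ} {f : ℕ → ℕ → ℕ} (T : List (List ℕ)) (h : i < r) :
    (tab r c f ++ T).getD i [] = (List.range c).map (f i) := by
  rw [List.getD_eq_getElem?_getD, List.getElem?_append_left (by rw [tab_length]; exact h),
    ← List.getD_eq_getElem?_getD]
  exact getD_map_range _ _ h

theorem tab_getD_append_right {r c i : ℕ} {f : ℕ → ℕ → ℕ} (T : List (List ℕ)) (r' : ℕ)
    (hT : T.length = r') (h : i < r) :
    (T ++ tab r c f).getD (r' + i) [] = (List.range c).map (f i) := by
  rw [List.getD_eq_getElem?_getD, List.getElem?_append_right (by omega), hT,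
    Nat.add_sub_cancel_left, ← List.getD_eq_getElem?_getD]
  exact getD_map_range _ _ h

/-- The update of a table that consists of two tables. -/
theorem map_updRow {vs : List ℕ} {T : List (List ℕ)} {a r c' : ℕ} {f g : ℕ → ℕ → ℕ} {v : ℕ → ℕ}
    (hvs : vs = (List.range (a + 1)).map v)
    (hT : ∀ X ≤ a, T.getD X [] = (List.range c').map (g X)) (hv : ∀ x ≤ a, v x < c') :
    (tab r (a + 1) f).map (updRow vs T) =
      tab r (a + 1) (fun i X => min (f i X) (mn a fun x => f i x + g X (v x))) := by
  have hlen : vs.length = a + 1 := by rw [hvs, List.length_map, List.length_range]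
  unfold tab
  rw [List.map_map]
  refine List.map_congr_left fun i _ => ?_
  simp only [Function.comp_apply]
  unfold updRow
  rw [hlen]
  refine List.map_congr_left fun X hX => ?_
  rw [List.mem_range] at hX
  rw [getD_map_range _ _ hX]
  congr 1
  rw [← lmin_range]
  congr 1
  refine List.map_congr_left fun x hx => ?_
  rw [List.mem_range] at hx
  rw [getD_map_range _ _ hx, hT X (by omega), hvs, getD_map_range _ _ hx,
    getD_map_range _ _ (hv x (by omega))]

/-- The state of the algorithm. -/
theorem state_eq {v h : ℕ → ℕ} {a b : ℕ} (hvb : ∀ x, v x ≤ b) (hha : ∀ y, h y ≤ a) (s : ℕ) :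
    (stepSt ((List.range (a + 1)).map v, (List.range (b + 1)).map h))^[s]
      (base ((List.range (a + 1)).map v, (List.range (b + 1)).map h)) =
    (tab (b + 1) (a + 1) (D v h a b (s + 1)) ++ tab (a + 1) (a + 1) (E v h a b s),
      tab (a + 1) (b + 1) (D h v b a (s + 1)) ++ tab (b + 1) (b + 1) (E h v b a s)) := by
  induction s with
  | zero =>
    simp only [Function.iterate_zero, id]
    have h1 : rmul ((List.range (a + 1)).map v) ((List.range (b + 1)).map h) =
        tab (a + 1) (b + 1) (D h v b a 0) := by
      unfold rmul tab
      simp only [List.length_map, List.length_range]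
      rfl
    have h2 : rmul ((List.range (b + 1)).map h) ((List.range (a + 1)).map v) =
        tab (b + 1) (a + 1) (D v h a b 0) := by
      unfold rmul tab
      simp only [List.length_map, List.length_range]
      rfl
    have e1 : ebase ((List.range (a + 1)).map v) = tab (a + 1) (a + 1) (E v h a b 0) := by
      unfold ebase tab
      simp only [List.length_map, List.length_range]
      refine List.map_congr_left fun p hp => List.map_congr_left fun X hX => ?_
      rw [getD_map_range _ _ (List.mem_range.1 hp)]
      rfl
    have e2 : ebase ((List.range (b + 1)).map h) = tab (b + 1) (b + 1) (E h v b a 0) := by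
      unfold ebase tab
      simp only [List.length_map, List.length_range]
      refine List.map_congr_left fun p hp => List.map_congr_left fun X hX => ?_
      rw [getD_map_range _ _ (List.mem_range.1 hp)]
      rfl
    unfold base
    simp only
    rw [h1, h2, e1, e2]
    have hg1 : ∀ X ≤ a, (tab (a + 1) (b + 1) (D h v b a 0)).getD X [] =
        (List.range (b + 1)).map (D h v b a 0 X) := fun X hX => getD_map_range _ _ (by omega)
    have hg2 : ∀ X ≤ b, (tab (b + 1) (a + 1) (D v h a b 0)).getD X [] =
        (List.range (a + 1)).map (D v h a b 0 X) := fun X hX => getD_map_range _ _ (by omega)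
    rw [map_updRow (a := a) (c' := b + 1) (g := D h v b a 0) (v := v) rfl hg1
        (fun x _ => by have := hvb x; omega),
      map_updRow (a := b) (c' := a + 1) (g := D v h a b 0) (v := h) rfl hg2
        (fun x _ => by have := hha x; omega)]
    rfl
  | succ s ih =>
    rw [Function.iterate_succ_apply', ih]
    unfold stepSt
    simp only [List.map_append]
    have hg1 : ∀ X ≤ a, (tab (a + 1) (b + 1) (D h v b a (s + 1)) ++
        tab (b + 1) (b + 1) (E h v b a s)).getD X [] =
        (List.range (b + 1)).map (D h v b a (s + 1) X) := fun X hX =>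
      tab_getD_append _ (by omega)
    have hg2 : ∀ X ≤ b, (tab (b + 1) (a + 1) (D v h a b (s + 1)) ++
        tab (a + 1) (a + 1) (E v h a b s)).getD X [] =
        (List.range (a + 1)).map (D v h a b (s + 1) X) := fun X hX =>
      tab_getD_append _ (by omega)
    rw [map_updRow (a := a) (c' := b + 1) (g := D h v b a (s + 1)) (v := v) rfl hg1
        (fun x _ => by have := hvb x; omega),
      map_updRow (a := a) (c' := b + 1) (g := D h v b a (s + 1)) (v := v) rfl hg1
        (fun x _ => by have := hvb x; omega),
      map_updRow (a := b) (c' := a + 1) (g := D v h a b (s + 1)) (v := h) rfl hg2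
        (fun x _ => by have := hha x; omega),
      map_updRow (a := b) (c' := a + 1) (g := D v h a b (s + 1)) (v := h) rfl hg2
        (fun x _ => by have := hha x; omega)]
    rfl

theorem lmin_flatMap (a b : ℕ) (f : ℕ → ℕ → ℕ) :
    lmin ((List.range (a + 1)).flatMap fun p => (List.range (b + 1)).map (f p)) =
      mn a fun p => mn b (f p) := by
  have hne : ((List.range (a + 1)).flatMap fun p => (List.range (b + 1)).map (f p)) ≠ [] := by
    intro h
    have h1 : f 0 0 ∈ ((List.range (a + 1)).flatMap fun p => (List.range (b + 1)).map (f p)) := by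
      rw [List.mem_flatMap]
      exact ⟨0, by simp, List.mem_map.2 ⟨0, by simp, rfl⟩⟩
    rw [h] at h1
    exact absurd h1 List.not_mem_nil
  have h : ∀ t, t ≤ lmin ((List.range (a + 1)).flatMap fun p => (List.range (b + 1)).map (f p)) ↔
      t ≤ mn a fun p => mn b (f p) := by
    intro t
    rw [le_lmin hne, le_mn]
    constructor
    · intro h i hi
      rw [le_mn]
      intro j hj
      exact h _ (List.mem_flatMap.2 ⟨i, List.mem_range.2 (by omega),
        List.mem_map.2 ⟨j, List.mem_range.2 (by omega), rfl⟩⟩)
    · intro h x hx
      rw [List.mem_flatMap] at hx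
      obtain ⟨i, hi, hx⟩ := hx
      rw [List.mem_map] at hx
      obtain ⟨j, hj, rfl⟩ := hx
      rw [List.mem_range] at hi hj
      exact le_mn.1 (h i (by omega)) j (by omega)
  exact Nat.le_antisymm ((h _).1 le_rfl) ((h _).2 le_rfl)

/-- The value computed by the algorithm. -/
theorem val_algo {i : Inp} {v h : ℕ → ℕ} {a b : ℕ} (hvb : ∀ x, v x ≤ b) (hha : ∀ y, h y ≤ a)
    (hv : v a = 0) (hi : profs i = ((List.range (a + 1)).map v, (List.range (b + 1)).map h))
    {m n : ℕ} (han : a ≤ n) : val (algo i) m n = D v h a b i.1.length m n := by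
  obtain ⟨L, r⟩ := i
  rcases L with _ | ⟨u, _ | ⟨u', L⟩⟩
  · show lmin _ = m * n
    simp [algo, lmin]
  · show lmin _ = D v h a b 1 m n
    rw [D_one m n han hv]
    simp only [algo]
    rw [hi]
    simp only [List.length_map, List.length_range, List.map_map]
    rw [← lmin_range]
    congr 1
    refine List.map_congr_left fun x hx => ?_
    simp only [Function.comp_apply]
    rw [getD_map_range _ _ (List.mem_range.1 hx)]
    ring
  · show lmin _ = D v h a b (L.length + 2) m n
    rw [D_form L.length m n han hv hvb]
    simp only [algo]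
    rw [hi, state_eq hvb hha]
    unfold outp
    simp only [List.length_map, List.length_range]
    rw [List.map_flatMap, ← lmin_flatMap]
    congr 1
    refine List.flatMap_congr fun p hp => ?_
    rw [List.map_map]
    refine List.map_congr_left fun q hq => ?_
    rw [List.mem_range] at hp hq
    simp only [Function.comp_apply, mul_zero, add_zero]
    rw [Kc, ← lmin_range]
    congr 2
    refine List.map_congr_left fun x hx => ?_
    rw [List.mem_range] at hx
    rw [tab_getD_append_right _ (b + 1) (tab_length _ _ _) hp,
      tab_getD_append_right _ (a + 1) (tab_length _ _ _) hq, getD_map_range _ _ hx,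
      getD_map_range _ _ hx, getD_map_range _ _ (by have := hvb x; omega)]

end Pool.Agent.R551.YD
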