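import Pool.Agent.R551.YD.PolyA

/-!
# The algorithm runs in polynomial time
-/

namespace Pool.Agent.R551.YD

open Pool.Agent.NPC

theorem poly_outp : NPC.Poly (fun p : (List ℕ × List ℕ) × (List (List ℕ) × List (List ℕ)) =>
    outp p.1 p.2) := by
  have a1 : NPC.Poly (fun p : (List ℕ × List ℕ) × (List (List ℕ) × List (List ℕ)) => p.1.1) :=
    NPC.Poly.fst (NPC.Poly.fst NPC.Poly.id)
  have a2 : NPC.Poly (fun p : (List ℕ × List ℕ) × (List (List ℕ) × List (List ℕ)) => p.1.2) :=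
    NPC.Poly.snd (NPC.Poly.fst NPC.Poly.id)
  have a3 : NPC.Poly (fun p : (List ℕ × List ℕ) × (List (List ℕ) × List (List ℕ)) => p.2.1) :=
    NPC.Poly.fst (NPC.Poly.snd NPC.Poly.id)
  have a4 : NPC.Poly (fun p : (List ℕ × List ℕ) × (List (List ℕ) × List (List ℕ)) => p.2.2) :=
    NPC.Poly.snd (NPC.Poly.snd NPC.Poly.id)
  refine NPC.Poly.flatMap (F := fun (w : (List ℕ × List ℕ) × (List (List ℕ) × List (List ℕ))) p =>
    (List.range w.1.2.length).map fun q =>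
    (p, q, 0, lmin ((List.range w.1.1.length).map fun x =>
      (w.2.1.getD (w.1.2.length + p) []).getD x 0 +
        (w.2.2.getD (w.1.1.length + q) []).getD (w.1.1.getD x 0) 0))) (NPC.Poly.range_length a1) ?_
  refine NPC.Poly.map (F := fun (w : ((List ℕ × List ℕ) × (List (List ℕ) × List (List ℕ))) × ℕ) q =>
    (w.2, q, 0, lmin ((List.range w.1.1.1.length).map fun x =>
      (w.1.2.1.getD (w.1.1.2.length + w.2) []).getD x 0 +
        (w.1.2.2.getD (w.1.1.1.length + q) []).getD (w.1.1.1.getD x 0) 0)))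
      (NPC.Poly.range_length (a2.comp (NPC.Poly.fst NPC.Poly.id))) ?_
  refine NPC.Poly.pair (NPC.Poly.snd (NPC.Poly.fst NPC.Poly.id)) (NPC.Poly.pair (NPC.Poly.snd NPC.Poly.id)
    (NPC.Poly.pair (NPC.Poly.const 0) ?_))
  refine poly_lmin (NPC.Poly.map (F := fun
    (w : (((List ℕ × List ℕ) × (List (List ℕ) × List (List ℕ))) × ℕ) × ℕ) x =>
      (w.1.1.2.1.getD (w.1.1.1.2.length + w.1.2) []).getD x 0 +
        (w.1.1.2.2.getD (w.1.1.1.1.length + w.2) []).getD (w.1.1.1.1.getD x 0) 0)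
      (NPC.Poly.range_length (a1.comp (NPC.Poly.fst (NPC.Poly.fst NPC.Poly.id)))) ?_)
  have c0 : NPC.Poly (fun
    w : ((((List ℕ × List ℕ) × (List (List ℕ) × List (List ℕ))) × ℕ) × ℕ) × ℕ => w.1.1.1) :=
    NPC.Poly.fst (NPC.Poly.fst (NPC.Poly.fst NPC.Poly.id))
  have c1 : NPC.Poly (fun
    w : ((((List ℕ × List ℕ) × (List (List ℕ) × List (List ℕ))) × ℕ) × ℕ) × ℕ => w.1.1.2) :=
    NPC.Poly.snd (NPC.Poly.fst (NPC.Poly.fst NPC.Poly.id))
  have c2 : NPC.Poly (fun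
    w : ((((List ℕ × List ℕ) × (List (List ℕ) × List (List ℕ))) × ℕ) × ℕ) × ℕ => w.1.2) :=
    NPC.Poly.snd (NPC.Poly.fst NPC.Poly.id)
  have c3 : NPC.Poly (fun
    w : ((((List ℕ × List ℕ) × (List (List ℕ) × List (List ℕ))) × ℕ) × ℕ) × ℕ => w.2) :=
    NPC.Poly.snd NPC.Poly.id
  exact NPC.Poly.add
    (NPC.Poly.getD (NPC.Poly.getD (a3.comp c0) (NPC.Poly.add (NPC.Poly.length (a2.comp c0)) c1)
      (NPC.Poly.const [])) c3 (NPC.Poly.const 0))
    (NPC.Poly.getD (NPC.Poly.getD (a4.comp c0) (NPC.Poly.add (NPC.Poly.length (a1.comp c0)) c2)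
      (NPC.Poly.const [])) (NPC.Poly.getD (a1.comp c0) c3 (NPC.Poly.const 0)) (NPC.Poly.const 0))

theorem poly_profs : NPC.Poly profs := by
  have h1 : NPC.Poly (fun i : Inp => i.2.1) := NPC.Poly.fst (NPC.Poly.snd NPC.Poly.id)
  have h2 : NPC.Poly (fun i : Inp => i.2.2) := NPC.Poly.snd (NPC.Poly.snd NPC.Poly.id)
  refine NPC.Poly.pair (NPC.Poly.append h1 (NPC.Poly.const [0])) ?_
  have h3 : NPC.Poly (fun i : Inp => List.range (i.2.2.length + 1)) :=
    (NPC.Poly.range_length (NPC.Poly.cons (NPC.Poly.const ()) h2)).congr fun i => rfl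
  refine NPC.Poly.map (F := fun (i : Inp) y => (i.2.1.filter fun t => decide (y < t)).length) h3 ?_
  exact NPC.Poly.length (NPC.Poly.filter (p := fun (p : Inp × ℕ) t => decide (p.2 < t))
    (h1.comp (NPC.Poly.fst NPC.Poly.id))
    (NPC.Poly.decide_lt (NPC.Poly.snd (NPC.Poly.fst NPC.Poly.id)) (NPC.Poly.snd NPC.Poly.id)))


section

attribute [local irreducible] stepSt base outp


theorem poly_iter_aux (r : Polynomial ℕ) (hr : ∀ x : List Unit × (List ℕ × List ℕ), sz (base x.2) ≤ r.eval (sz x))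
   (x : List Unit × (List ℕ × List ℕ)) (k : ℕ) : sz ((stepSt x.2)^[k] (base x.2)) ≤ (Polynomial.C 2 * r).eval (sz x) := by
  obtain ⟨h1, h2, -, -⟩ := iter_inv x.2 k
  have h3 := sz_LeT h1
  have h4 := sz_LeT h2
  have h5 := hr x
  have h6 := sz_prod ((stepSt x.2)^[k] (base x.2))
  have h7 := sz_prod (base x.2)
  rw [Polynomial.eval_mul, Polynomial.eval_C]
  omega

theorem poly_iter : NPC.Poly (fun x : List Unit × (List ℕ × List ℕ) =>
    (stepSt x.2)^[x.1.length] (base x.2)) := by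
  have hb : NPC.Poly (fun x : List Unit × (List ℕ × List ℕ) => base x.2) :=
    poly_base.comp (NPC.Poly.snd NPC.Poly.id)
  obtain ⟨r, hr⟩ := hb.sz_le
  refine NPC.Poly.iterLen (l := fun x : List Unit × (List ℕ × List ℕ) => x.1)
    (s := fun x => base x.2) (F := fun x T => stepSt x.2 T) (NPC.Poly.fst NPC.Poly.id) hb
    ?_
    (Polynomial.C 2 * r) ?_
  · have h1 : NPC.Poly (fun p : (List Unit × (List ℕ × List ℕ)) × (List (List ℕ) × List (List ℕ)) => (p.1.2, p.2)) :=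
      NPC.Poly.pair (NPC.Poly.snd (NPC.Poly.fst NPC.Poly.id)) (NPC.Poly.snd NPC.Poly.id)
    exact NPC.Poly.comp (g := fun p : (List ℕ × List ℕ) × (List (List ℕ) × List (List ℕ)) => stepSt p.1 p.2) poly_stepSt h1
  · exact fun x k _ => poly_iter_aux r hr x k

/-- The algorithm for positive latency. -/
def algo2 (i : Inp) (t : List Unit) : List (ℕ × ℕ × ℕ × ℕ) :=
  match t with
  | [] => (List.range (profs i).1.length).map fun x => (x, (profs i).1.getD x 0, 0, 0)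
  | _ :: l => outp (profs i) ((stepSt (profs i))^[l.length] (base (profs i)))

theorem poly_algo2 : NPC.Poly (fun p : Inp × List Unit => algo2 p.1 p.2) := by
  have hvs : NPC.Poly (fun i : Inp => (profs i).1) := NPC.Poly.fst poly_profs
  have h1 : NPC.Poly (fun p : Inp × List Unit => (List.range (profs p.1).1.length).map fun x =>
          (x, (profs p.1).1.getD x 0, (0 : ℕ), (0 : ℕ))) := by
    refine NPC.Poly.map (F := fun (p : Inp × List Unit) x =>
          (x, (profs p.1).1.getD x 0, (0 : ℕ), (0 : ℕ)))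
          (NPC.Poly.range_length (hvs.comp (NPC.Poly.fst NPC.Poly.id))) ?_
    exact NPC.Poly.pair (NPC.Poly.snd NPC.Poly.id) (NPC.Poly.pair
        (NPC.Poly.getD (hvs.comp (NPC.Poly.fst (NPC.Poly.fst NPC.Poly.id)))
          (NPC.Poly.snd NPC.Poly.id) (NPC.Poly.const 0))
        (NPC.Poly.const _))
  have h2 : NPC.Poly (fun x : (Inp × List Unit) × Unit × List Unit =>
      outp (profs x.1.1) ((stepSt (profs x.1.1))^[x.2.2.length] (base (profs x.1.1)))) := by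
    have hp : NPC.Poly (fun x : (Inp × List Unit) × Unit × List Unit => profs x.1.1) :=
      poly_profs.comp (NPC.Poly.fst (NPC.Poly.fst NPC.Poly.id))
    have hl : NPC.Poly (fun x : (Inp × List Unit) × Unit × List Unit => x.2.2) :=
      NPC.Poly.snd (NPC.Poly.snd NPC.Poly.id)
    have h3 : NPC.Poly (fun x : (Inp × List Unit) × Unit × List Unit =>
        (stepSt (profs x.1.1))^[x.2.2.length] (base (profs x.1.1))) :=
      NPC.Poly.comp (g := fun x : List Unit × (List ℕ × List ℕ) =>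
        (stepSt x.2)^[x.1.length] (base x.2))
        (f := fun x : (Inp × List Unit) × Unit × List Unit => (x.2.2, profs x.1.1))
        poly_iter (NPC.Poly.pair hl hp)
    exact NPC.Poly.comp (g := fun p : (List ℕ × List ℕ) × (List (List ℕ) × List (List ℕ)) =>
      outp p.1 p.2) (f := fun x : (Inp × List Unit) × Unit × List Unit =>
        (profs x.1.1, (stepSt (profs x.1.1))^[x.2.2.length] (base (profs x.1.1))))
      poly_outp (NPC.Poly.pair hp h3)
  refine (NPC.Poly.listCases (l := fun p : Inp × List Unit => p.2)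
    (g := fun p => (List.range (profs p.1).1.length).map fun x =>
          (x, (profs p.1).1.getD x 0, (0 : ℕ), (0 : ℕ)))
    (h := fun p _ l => outp (profs p.1) ((stepSt (profs p.1))^[l.length] (base (profs p.1))))
    (NPC.Poly.snd NPC.Poly.id) h1 h2).congr fun p => ?_
  obtain ⟨i, t⟩ := p
  cases t <;> rfl

theorem poly_algo : NPC.Poly algo := by
  refine (NPC.Poly.listCases (l := fun i : Inp => i.1)
    (g := fun _ => [((0 : ℕ), (0 : ℕ), (1 : ℕ), (0 : ℕ))])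
    (h := fun i _ t => algo2 i t)
    (NPC.Poly.fst NPC.Poly.id) (NPC.Poly.const _) ?_).congr fun i => ?_
  · exact poly_algo2.comp (NPC.Poly.pair (NPC.Poly.fst NPC.Poly.id)
      (NPC.Poly.snd (NPC.Poly.snd NPC.Poly.id)))
  · obtain ⟨L, r⟩ := i
    rcases L with _ | ⟨u, _ | ⟨u', L⟩⟩ <;> rfl


end

theorem poly_val : NPC.Poly (fun p : List (ℕ × ℕ × ℕ × ℕ) × ℕ × ℕ => val p.1 p.2.1 p.2.2) := by
  refine poly_lmin (NPC.Poly.map (F := fun (p : List (ℕ × ℕ × ℕ × ℕ) × ℕ × ℕ) t =>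
    p.2.1 * t.1 + p.2.2 * t.2.1 + p.2.1 * p.2.2 * t.2.2.1 + t.2.2.2) (NPC.Poly.fst NPC.Poly.id) ?_)
  have hm : NPC.Poly (fun q : (List (ℕ × ℕ × ℕ × ℕ) × ℕ × ℕ) × (ℕ × ℕ × ℕ × ℕ) => q.1.2.1) :=
    NPC.Poly.fst (NPC.Poly.snd (NPC.Poly.fst NPC.Poly.id))
  have hn : NPC.Poly (fun q : (List (ℕ × ℕ × ℕ × ℕ) × ℕ × ℕ) × (ℕ × ℕ × ℕ × ℕ) => q.1.2.2) :=
    NPC.Poly.snd (NPC.Poly.snd (NPC.Poly.fst NPC.Poly.id))
  have ht : NPC.Poly (fun q : (List (ℕ × ℕ × ℕ × ℕ) × ℕ × ℕ) × (ℕ × ℕ × ℕ × ℕ) => q.2) :=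
    NPC.Poly.snd NPC.Poly.id
  exact NPC.Poly.add (NPC.Poly.add (NPC.Poly.add (NPC.Poly.mul hm (NPC.Poly.fst ht))
    (NPC.Poly.mul hn (NPC.Poly.fst (NPC.Poly.snd ht))))
    (NPC.Poly.mul (NPC.Poly.mul hm hn) (NPC.Poly.fst (NPC.Poly.snd (NPC.Poly.snd ht)))))
    (NPC.Poly.snd (NPC.Poly.snd (NPC.Poly.snd ht)))

end Pool.Agent.R551.YD
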