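import Pool.Agent.R551.YD.Defs

/-!
# The dynamic programme and the two bounds
-/

namespace Pool.Agent.R551.YD

open Finset
open scoped Classical

/-! ### Minima over initial segments -/

/-- `min_{i ≤ a} f i`. -/
def mn (a : ℕ) (f : ℕ → ℕ) : ℕ :=
  match a with
  | 0 => f 0
  | a + 1 => min (mn a f) (f (a + 1))

theorem le_mn {a t : ℕ} {f : ℕ → ℕ} : t ≤ mn a f ↔ ∀ i ≤ a, t ≤ f i := by
  induction a with
  | zero =>
    simp only [mn]
    exact ⟨fun h i hi => by rwa [Nat.le_zero.1 hi], fun h => h 0 le_rfl⟩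
  | succ a ih =>
    simp only [mn, le_min_iff, ih]
    constructor
    · rintro ⟨h1, h2⟩ i hi
      rcases Nat.lt_or_ge i (a + 1) with h | h
      · exact h1 i (by omega)
      · rwa [show i = a + 1 by omega]
    · exact fun h => ⟨fun i hi => h i (by omega), h _ le_rfl⟩

theorem mn_le {a i : ℕ} {f : ℕ → ℕ} (h : i ≤ a) : mn a f ≤ f i := le_mn.1 le_rfl i h

theorem mn_attained (a : ℕ) (f : ℕ → ℕ) : ∃ i ≤ a, mn a f = f i := by
  by_contra hcon
  push Not at hcon
  have h1 : mn a f + 1 ≤ mn a f := le_mn.2 fun i hi => by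
    have h2 := mn_le (f := f) hi
    have h3 := hcon i hi
    omega
  omega

theorem mn_mono {a : ℕ} {f g : ℕ → ℕ} (h : ∀ i ≤ a, f i ≤ g i) : mn a f ≤ mn a g :=
  le_mn.2 fun i hi => (mn_le hi).trans (h i hi)

/-! ### The dynamic programme -/

/-- The cost estimate: `D v h a b s k X` for `k` rows with `X` occupied vertices each at time `s`. -/
def D (v h : ℕ → ℕ) (a b : ℕ) (s k X : ℕ) : ℕ :=
  match s with
  | 0 => k * X
  | s + 1 => min (D v h a b s k X) (mn a fun x => D v h a b s k x + D h v b a s X (v x))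

theorem D_le_prod (s : ℕ) : ∀ (v h : ℕ → ℕ) (a b k X : ℕ), D v h a b s k X ≤ k * X := by
  induction s with
  | zero => intro v h a b k X; exact le_rfl
  | succ s ih => intro v h a b k X; exact (min_le_left _ _).trans (ih _ _ _ _ _ _)

theorem D_mono (s : ℕ) : ∀ (v h : ℕ → ℕ) (a b k k' X X' : ℕ), k ≤ k' → X ≤ X' →
    D v h a b s k X ≤ D v h a b s k' X' := by
  induction s with
  | zero => intro v h a b k k' X X' h1 h2; exact Nat.mul_le_mul h1 h2
  | succ s ih =>
    intro v h a b k k' X X' h1 h2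
    exact min_le_min (ih _ _ _ _ _ _ _ _ h1 h2)
      (mn_mono fun x _ => add_le_add (ih _ _ _ _ _ _ _ _ h1 le_rfl) (ih _ _ _ _ _ _ _ _ h2 le_rfl))

theorem D_double_left (s : ℕ) (v h : ℕ → ℕ) (a b k X : ℕ) :
    D v h a b s (2 * k) X ≤ 2 * D v h a b s k X := by
  induction s generalizing X with
  | zero => simp only [D]; rw [mul_assoc]
  | succ s ih =>
    simp only [D]
    rcases min_choice (D v h a b s k X) (mn a fun x => D v h a b s k x + D h v b a s X (v x))
      with hm | hm
    · rw [hm]
      exact (min_le_left _ _).trans (ih _)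
    · rw [hm]
      obtain ⟨x, hx, hx'⟩ := mn_attained a fun x => D v h a b s k x + D h v b a s X (v x)
      rw [hx']
      refine (min_le_right _ _).trans ((mn_le hx).trans ?_)
      have := ih x
      omega

theorem D_double_right (s : ℕ) (v h : ℕ → ℕ) (a b k X : ℕ) :
    D v h a b s k (2 * X) ≤ 2 * D v h a b s k X := by
  induction s with
  | zero => simp only [D]; exact le_of_eq (by ring)
  | succ s ih =>
    simp only [D]
    rcases min_choice (D v h a b s k X) (mn a fun x => D v h a b s k x + D h v b a s X (v x))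
      with hm | hm
    · rw [hm]
      exact (min_le_left _ _).trans ih
    · rw [hm]
      obtain ⟨x, hx, hx'⟩ := mn_attained a fun x => D v h a b s k x + D h v b a s X (v x)
      rw [hx']
      refine (min_le_right _ _).trans ((mn_le hx).trans ?_)
      have := D_double_left s h v b a X (v x)
      omega

/-! ### The dynamics -/

variable {n m : ℕ}

/-- The number of members of `A` in the row `y`. -/
noncomputable def rc (A : Finset (Fin n × Fin m)) (y : Fin m) : ℕ :=
  (univ.filter fun x => (x, y) ∈ A).card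

/-- The number of members of `A` in the column `x`. -/
noncomputable def cc (A : Finset (Fin n × Fin m)) (x : Fin n) : ℕ :=
  (univ.filter fun y => (x, y) ∈ A).card

theorem rc_le (A : Finset (Fin n × Fin m)) (y : Fin m) : rc A y ≤ n := by
  refine (card_le_univ _).trans ?_
  rw [Fintype.card_fin]

theorem rc_mono {A B : Finset (Fin n × Fin m)} (h : A ⊆ B) (y : Fin m) : rc A y ≤ rc B y :=
  card_le_card fun x hx => by
    rw [mem_filter] at hx ⊢
    exact ⟨hx.1, h hx.2⟩

theorem cc_mono {A B : Finset (Fin n × Fin m)} (h : A ⊆ B) (x : Fin n) : cc A x ≤ cc B x :=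
  card_le_card fun y hy => by
    rw [mem_filter] at hy ⊢
    exact ⟨hy.1, h hy.2⟩

theorem mem_step {Z : Set (ℕ × ℕ)} {A : Finset (Fin n × Fin m)} {x : Fin n} {y : Fin m} :
    (x, y) ∈ step Z A ↔ (x, y) ∈ A ∨ (rc A y, cc A x) ∉ Z := by
  unfold step
  rw [mem_union, mem_filter]
  by_cases hA : (x, y) ∈ A
  · simp [hA]
  · have h1 : (A.filter fun w => w ≠ (x, y) ∧ w.2 = (x, y).2).card = rc A y := by
      unfold rc
      refine card_bij (fun w _ => w.1) ?_ ?_ ?_
      · rintro ⟨p, q⟩ hw
        rw [mem_filter] at hw ⊢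
        obtain ⟨h1, _, h3⟩ := hw
        simp only at h3
        subst h3
        exact ⟨mem_univ _, h1⟩
      · rintro ⟨p, q⟩ hw ⟨p', q'⟩ hw' heq
        rw [mem_filter] at hw hw'
        obtain ⟨_, _, h3⟩ := hw
        obtain ⟨_, _, h3'⟩ := hw'
        simp only at h3 h3' heq
        rw [h3, h3', heq]
      · intro p hp
        rw [mem_filter] at hp
        refine ⟨(p, y), ?_, rfl⟩
        rw [mem_filter]
        refine ⟨hp.2, ?_, rfl⟩
        rintro heq
        rw [heq] at hp
        exact hA hp.2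
    have h2 : (A.filter fun w => w ≠ (x, y) ∧ w.1 = (x, y).1).card = cc A x := by
      unfold cc
      refine card_bij (fun w _ => w.2) ?_ ?_ ?_
      · rintro ⟨p, q⟩ hw
        rw [mem_filter] at hw ⊢
        obtain ⟨g1, _, h3⟩ := hw
        simp only at h3
        subst h3
        exact ⟨mem_univ _, g1⟩
      · rintro ⟨p, q⟩ hw ⟨p', q'⟩ hw' heq
        rw [mem_filter] at hw hw'
        obtain ⟨_, _, h3⟩ := hw
        obtain ⟨_, _, h3'⟩ := hw'
        simp only at h3 h3' heq
        rw [h3, h3', heq]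
      · intro q hq
        rw [mem_filter] at hq
        refine ⟨(x, q), ?_, rfl⟩
        rw [mem_filter]
        refine ⟨hq.2, ?_, rfl⟩
        rintro heq
        rw [heq] at hq
        exact hA hq.2
    rw [h1, h2]
    simp [hA]

theorem subset_step (Z : Set (ℕ × ℕ)) (A : Finset (Fin n × Fin m)) : A ⊆ step Z A :=
  subset_union_left

theorem step_mono {Z : Set (ℕ × ℕ)} (hZ : IsLowerSet Z) {A B : Finset (Fin n × Fin m)}
    (h : A ⊆ B) : step Z A ⊆ step Z B := by
  rintro ⟨x, y⟩ hxy
  rw [mem_step] at hxy ⊢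
  rcases hxy with hxy | hxy
  · exact Or.inl (h hxy)
  · exact Or.inr fun hB => hxy (hZ ⟨rc_mono h y, cc_mono h x⟩ hB)

theorem iter_mono {Z : Set (ℕ × ℕ)} (hZ : IsLowerSet Z) (s : ℕ) {A B : Finset (Fin n × Fin m)}
    (h : A ⊆ B) : (step Z)^[s] A ⊆ (step Z)^[s] B := by
  induction s with
  | zero => exact h
  | succ s ih =>
    rw [Function.iterate_succ_apply', Function.iterate_succ_apply']
    exact step_mono hZ ih

/-! ### Transposition -/

/-- The transposed set. -/
noncomputable def tr (A : Finset (Fin n × Fin m)) : Finset (Fin m × Fin n) :=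
  A.map (Equiv.prodComm (Fin n) (Fin m)).toEmbedding

theorem mem_tr {A : Finset (Fin n × Fin m)} {x : Fin n} {y : Fin m} :
    (y, x) ∈ tr A ↔ (x, y) ∈ A := by
  unfold tr
  rw [mem_map]
  constructor
  · rintro ⟨⟨p, q⟩, h1, h2⟩
    simp only [Equiv.coe_toEmbedding, Equiv.prodComm_apply, Prod.swap_prod_mk, Prod.mk.injEq] at h2
    rw [← h2.1, ← h2.2]
    exact h1
  · exact fun h => ⟨(x, y), h, rfl⟩

theorem card_tr (A : Finset (Fin n × Fin m)) : (tr A).card = A.card := card_map _

theorem rc_tr (A : Finset (Fin n × Fin m)) (x : Fin n) : rc (tr A) x = cc A x := by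
  unfold rc cc
  congr 1
  ext y
  rw [mem_filter, mem_filter, mem_tr]

theorem cc_tr (A : Finset (Fin n × Fin m)) (y : Fin m) : cc (tr A) y = rc A y := by
  unfold rc cc
  congr 1
  ext x
  rw [mem_filter, mem_filter, mem_tr]

theorem tr_tr (A : Finset (Fin n × Fin m)) : tr (tr A) = A := by
  ext ⟨x, y⟩
  rw [mem_tr, mem_tr]

theorem step_tr (Z : Set (ℕ × ℕ)) (A : Finset (Fin n × Fin m)) :
    step (Prod.swap ⁻¹' Z) (tr A) = tr (step Z A) := by
  ext ⟨y, x⟩
  rw [mem_tr, mem_step, mem_step, mem_tr, rc_tr, cc_tr]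
  rfl

theorem iter_tr (Z : Set (ℕ × ℕ)) (s : ℕ) (A : Finset (Fin n × Fin m)) :
    (step (Prod.swap ⁻¹' Z))^[s] (tr A) = tr ((step Z)^[s] A) := by
  induction s with
  | zero => rfl
  | succ s ih => rw [Function.iterate_succ_apply', Function.iterate_succ_apply', ih, step_tr]

/-! ### Zero-sets with their profiles -/

/-- `Z` is a zero-set inside `R_{a,b}` with column heights `v` and row lengths `h`. -/
structure Prof (Z : Set (ℕ × ℕ)) (v h : ℕ → ℕ) (a b : ℕ) : Prop where
  mem_v : ∀ x y, (x, y) ∈ Z ↔ y < v x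
  mem_h : ∀ x y, (x, y) ∈ Z ↔ x < h y
  v_le : ∀ x, v x ≤ b
  h_le : ∀ y, h y ≤ a

theorem Prof.lower {Z : Set (ℕ × ℕ)} {v h : ℕ → ℕ} {a b : ℕ} (P : Prof Z v h a b) :
    IsLowerSet Z := by
  rintro ⟨x, y⟩ ⟨x', y'⟩ ⟨h1, h2⟩ h3
  have h4 : (x, y') ∈ Z := (P.mem_v _ _).2 (lt_of_le_of_lt h2 ((P.mem_v _ _).1 h3))
  exact (P.mem_h _ _).2 (lt_of_le_of_lt h1 ((P.mem_h _ _).1 h4))

theorem Prof.swap {Z : Set (ℕ × ℕ)} {v h : ℕ → ℕ} {a b : ℕ} (P : Prof Z v h a b) :
    Prof (Prod.swap ⁻¹' Z) h v b a :=
  ⟨fun x y => P.mem_h y x, fun x y => P.mem_v y x, P.h_le, P.v_le⟩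

theorem Prof.v_zero {Z : Set (ℕ × ℕ)} {v h : ℕ → ℕ} {a b : ℕ} (P : Prof Z v h a b) {x : ℕ}
    (hx : a ≤ x) : v x = 0 := by
  by_contra hne
  have h1 : (x, 0) ∈ Z := (P.mem_v _ _).2 (Nat.pos_of_ne_zero hne)
  have h2 := (P.mem_h _ _).1 h1
  have h3 := P.h_le 0
  omega

theorem Prof.v_min {Z : Set (ℕ × ℕ)} {v h : ℕ → ℕ} {a b : ℕ} (P : Prof Z v h a b) (x : ℕ) :
    v (min x a) = v x := by
  rcases le_total x a with hx | hx
  · rw [min_eq_left hx]
  · rw [min_eq_right hx, P.v_zero le_rfl, P.v_zero hx]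

theorem exists_card {m k : ℕ} (h : k ≤ m) : ∃ K : Finset (Fin m), K.card = k := by
  obtain ⟨K, -, hK⟩ := exists_subset_card_eq (s := (univ : Finset (Fin m))) (n := k)
    (by rw [card_univ, Fintype.card_fin]; exact h)
  exact ⟨K, hK⟩

/-- Upper bound: the dynamic programme is realised by sets. -/
theorem upper (s : ℕ) : ∀ {n m : ℕ} {Z : Set (ℕ × ℕ)} {v h : ℕ → ℕ} {a b : ℕ}
    (_ : Prof Z v h a b) (_ : a ≤ n) (_ : b ≤ m) (k X : ℕ), k ≤ m → X ≤ n →
    ∃ (A : Finset (Fin n × Fin m)) (K : Finset (Fin m)), A.card ≤ D v h a b s k X ∧ K.card = k ∧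
      ∀ y ∈ K, X ≤ rc ((step Z)^[s] A) y := by
  induction s with
  | zero =>
    intro n m Z v h a b P han hbm k X hk hX
    obtain ⟨K, hK⟩ := exists_card hk
    obtain ⟨N, hN⟩ := exists_card hX
    refine ⟨N ×ˢ K, K, ?_, hK, fun y hy => ?_⟩
    · rw [card_product, hK, hN]
      simp only [D]
      exact le_of_eq (mul_comm _ _)
    · rw [← hN]
      simp only [Function.iterate_zero, id]
      refine card_le_card fun x hx => ?_
      rw [mem_filter]
      exact ⟨mem_univ _, mem_product.2 ⟨hx, hy⟩⟩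
  | succ s ih =>
    intro n m Z v h a b P han hbm k X hk hX
    simp only [D]
    rcases min_choice (D v h a b s k X) (mn a fun x => D v h a b s k x + D h v b a s X (v x))
      with hm | hm
    · rw [hm]
      obtain ⟨A, K, h1, h2, h3⟩ := ih P han hbm k X hk hX
      refine ⟨A, K, h1, h2, fun y hy => (h3 y hy).trans (rc_mono ?_ y)⟩
      rw [Function.iterate_succ_apply']
      exact subset_step _ _
    · rw [hm]
      obtain ⟨x₀, hx₀, hx₀'⟩ := mn_attained a fun x => D v h a b s k x + D h v b a s X (v x)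
      rw [hx₀']
      obtain ⟨A, K, h1, h2, h3⟩ := ih P han hbm k x₀ hk (hx₀.trans han)
      obtain ⟨B, N, h4, h5, h6⟩ := ih P.swap hbm han X (v x₀) hX ((P.v_le x₀).trans hbm)
      refine ⟨A ∪ tr B, K, ?_, h2, fun y hy => ?_⟩
      · refine (card_union_le _ _).trans ?_
        rw [card_tr]
        exact add_le_add h1 h4
      · rw [← h5]
        refine card_le_card fun x hx => ?_
        rw [mem_filter, Function.iterate_succ_apply', mem_step]
        refine ⟨mem_univ _, Or.inr fun hmem => ?_⟩
        have h7 : x₀ ≤ rc ((step Z)^[s] (A ∪ tr B)) y :=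
          (h3 y hy).trans (rc_mono (iter_mono P.lower s subset_union_left) y)
        have h8 : v x₀ ≤ cc ((step Z)^[s] (A ∪ tr B)) x := by
          have h9 := h6 x hx
          have h10 : (step (Prod.swap ⁻¹' Z))^[s] B = tr ((step Z)^[s] (tr B)) := by
            rw [← iter_tr, tr_tr]
          rw [h10, rc_tr] at h9
          exact h9.trans (cc_mono (iter_mono P.lower s subset_union_right) x)
        have h11 : (x₀, v x₀) ∈ Z := P.lower ⟨h7, h8⟩ hmem
        exact lt_irrefl _ ((P.mem_v _ _).1 h11)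

/-- Lower bound: every set costs at least a constant fraction of the dynamic programme. -/
theorem lower (s : ℕ) : ∀ {n m : ℕ} {Z : Set (ℕ × ℕ)} {v h : ℕ → ℕ} {a b : ℕ}
    (_ : Prof Z v h a b) (A : Finset (Fin n × Fin m)) (K : Finset (Fin m)) (X : ℕ),
    (∀ y ∈ K, X ≤ rc ((step Z)^[s] A) y) → D v h a b s K.card X ≤ 4 ^ s * A.card := by
  induction s with
  | zero =>
    intro n m Z v h a b P A K X hK
    simp only [D, pow_zero, one_mul]
    calc K.card * X = ∑ y ∈ K, X := by rw [sum_const, smul_eq_mul]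
      _ ≤ ∑ y ∈ K, rc A y := sum_le_sum hK
      _ ≤ ∑ y, rc A y := sum_le_sum_of_subset (subset_univ _)
      _ = A.card := by
        rw [card_eq_sum_card_fiberwise (f := fun p : Fin n × Fin m => p.2) (t := univ)
          (fun _ _ => mem_coe.2 (mem_univ _))]
        refine sum_congr rfl fun y _ => ?_
        unfold rc
        refine card_bij (fun x _ => (x, y)) ?_ ?_ ?_
        · intro x hx
          rw [mem_filter] at hx ⊢
          exact ⟨hx.2, rfl⟩
        · intro x _ x' _ heq
          exact (Prod.mk.inj heq).1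
        · rintro ⟨p, q⟩ hp
          rw [mem_filter] at hp
          obtain ⟨h1, h2⟩ := hp
          simp only at h2
          subst h2
          exact ⟨p, by rw [mem_filter]; exact ⟨mem_univ _, h1⟩, rfl⟩
  | succ s ih =>
    intro n m Z v h a b P A K X hK
    set A' := (step Z)^[s] A with hA'
    have hsplit : (K.filter fun y => X ≤ 2 * rc A' y).card
        + (K.filter fun y => ¬ X ≤ 2 * rc A' y).card = K.card :=
      card_filter_add_card_filter_not _
    rcases Nat.lt_or_ge (2 * (K.filter fun y => X ≤ 2 * rc A' y).card) K.card with h1 | h1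
    · -- many rows gain many vertices
      set K' := K.filter fun y => ¬ X ≤ 2 * rc A' y with hK'
      have hK'2 : K.card ≤ 2 * K'.card := by omega
      have hne : K'.Nonempty := by
        rw [← card_pos]
        omega
      obtain ⟨y, hy, hymin⟩ := exists_min_image K' (fun y => rc A' y) hne
      set x := rc A' y with hx
      have hyK := (mem_filter.1 hy).1
      have hyX := (mem_filter.1 hy).2
      have h2 := ih P A K' x (fun y' hy' => hymin y' hy')
      -- the new columns
      set N := univ.filter fun p : Fin n => v x ≤ cc A' p with hN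
      have h3 : X ≤ 2 * N.card := by
        have h4 := hK y hyK
        rw [Function.iterate_succ_apply', ← hA'] at h4
        have h5 : rc (step Z A') y ≤ rc A' y + N.card := by
          unfold rc
          rw [← card_union_add_card_inter]
          refine le_trans (card_le_card ?_) (Nat.le_add_right _ _)
          intro p hp
          rw [mem_filter, mem_step] at hp
          rw [mem_union, mem_filter, hN, mem_filter]
          rcases hp.2 with h | h
          · exact Or.inl ⟨mem_univ _, h⟩
          · refine Or.inr ⟨mem_univ _, ?_⟩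
            by_contra hlt
            exact h ((P.mem_v _ _).2 (not_le.1 hlt))
        omega
      have h4 := ih P.swap (tr A) N (v x) (fun p hp => by
        rw [iter_tr, rc_tr]
        exact (mem_filter.1 hp).2)
      rw [card_tr] at h4
      have h5 : D v h a b (s + 1) K.card X ≤
          D v h a b s K.card (min x a) + D h v b a s X (v (min x a)) := by
        simp only [D]
        exact (min_le_right _ _).trans (mn_le (min_le_right _ _))
      rw [P.v_min] at h5
      have h6 : D v h a b s K.card (min x a) ≤ 2 * D v h a b s K'.card x :=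
        (D_mono _ _ _ _ _ _ _ _ _ hK'2 (min_le_left _ _)).trans (D_double_left _ _ _ _ _ _ _)
      have h7 : D h v b a s X (v x) ≤ 2 * D h v b a s N.card (v x) :=
        (D_mono _ _ _ _ _ _ _ _ _ h3 le_rfl).trans (D_double_left _ _ _ _ _ _ _)
      rw [pow_succ]
      calc D v h a b (s + 1) K.card X ≤ 2 * D v h a b s K'.card x
            + 2 * D h v b a s N.card (v x) := h5.trans (add_le_add h6 h7)
        _ ≤ 2 * (4 ^ s * A.card) + 2 * (4 ^ s * A.card) :=
            add_le_add (Nat.mul_le_mul_left _ h2) (Nat.mul_le_mul_left _ h4)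
        _ = 4 ^ s * 4 * A.card := by ring
    · -- many rows were half full before
      set K' := K.filter fun y => X ≤ 2 * rc A' y with hK'
      have h2 := ih P A K' ((X + 1) / 2) (fun y hy => by
        have := (mem_filter.1 hy).2
        rw [← hA']
        omega)
      have h3 : D v h a b (s + 1) K.card X ≤ D v h a b s K.card X := by
        simp only [D]
        exact min_le_left _ _
      have h4 : D v h a b s K.card X ≤ D v h a b s (2 * K'.card) (2 * ((X + 1) / 2)) :=
        D_mono _ _ _ _ _ _ _ _ _ h1 (by omega)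
      have h5 : D v h a b s (2 * K'.card) (2 * ((X + 1) / 2)) ≤
          2 * (2 * D v h a b s K'.card ((X + 1) / 2)) :=
        (D_double_left _ _ _ _ _ _ _).trans (Nat.mul_le_mul_left _ (D_double_right _ _ _ _ _ _ _))
      rw [pow_succ]
      calc D v h a b (s + 1) K.card X ≤ 2 * (2 * D v h a b s K'.card ((X + 1) / 2)) :=
            h3.trans (h4.trans h5)
        _ ≤ 2 * (2 * (4 ^ s * A.card)) := Nat.mul_le_mul_left _ (Nat.mul_le_mul_left _ h2)
        _ = 4 ^ s * 4 * A.card := by ring

theorem gam_le {Z : Set (ℕ × ℕ)} {v h : ℕ → ℕ} {a b : ℕ} (P : Prof Z v h a b) (L : ℕ) {n m : ℕ}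
    (han : a ≤ n) (hbm : b ≤ m) : gam L Z m n ≤ D v h a b L m n := by
  obtain ⟨A, K, h1, h2, h3⟩ := upper L P han hbm m n le_rfl le_rfl
  refine le_trans (Nat.sInf_le ⟨A, ?_, rfl⟩) h1
  have hK : K = univ := by
    rw [← card_eq_iff_eq_univ, Fintype.card_fin]
    exact h2
  ext ⟨x, y⟩
  simp only [mem_univ, iff_true]
  have h4 := h3 y (hK ▸ mem_univ y)
  have h5 : (univ.filter fun x => (x, y) ∈ (step Z)^[L] A) = univ := by
    rw [← card_eq_iff_eq_univ, Fintype.card_fin]
    exact le_antisymm (rc_le _ _) h4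
  have h6 : x ∈ (univ.filter fun x => (x, y) ∈ (step Z)^[L] A) := by
    rw [h5]
    exact mem_univ x
  exact (mem_filter.1 h6).2

theorem le_gam {Z : Set (ℕ × ℕ)} {v h : ℕ → ℕ} {a b : ℕ} (P : Prof Z v h a b) (L n m : ℕ) :
    D v h a b L m n ≤ 4 ^ L * gam L Z m n := by
  have hne : {c | ∃ A : Finset (Fin n × Fin m), (step Z)^[L] A = univ ∧ A.card = c}.Nonempty := by
    refine ⟨_, univ, ?_, rfl⟩
    induction L with
    | zero => rfl
    | succ L ih =>
      rw [Function.iterate_succ_apply', ih]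
      exact univ_subset_iff.1 (subset_step _ _)
  obtain ⟨A, h1, h2⟩ := Nat.sInf_mem hne
  have h3 := lower L P A (univ : Finset (Fin m)) n (fun y _ => by
    rw [h1]
    unfold rc
    rw [filter_true_of_mem (fun x _ => mem_univ _), card_univ, Fintype.card_fin])
  rw [card_univ, Fintype.card_fin, h2] at h3
  exact h3

end Pool.Agent.R551.YD
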