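import Mathlib

/-!
# Young domination with latency on Hamming rectangles
-/

namespace Pool.Agent.R551.YD

open Finset
open scoped Classical

/-- One step of the growth dynamics on the Hamming rectangle with vertex set `Fin n × Fin m`: a
vertex `v` outside `A` joins when the pair (number of other members of `A` in its row, number of
other members of `A` in its column) is not in the zero-set `Z`. Rows are given by the second
coordinate and columns by the first. -/
noncomputable def step {n m : ℕ} (Z : Set (ℕ × ℕ)) (A : Finset (Fin n × Fin m)) :
    Finset (Fin n × Fin m) :=
  A ∪ univ.filter fun v => v ∉ A ∧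
    ((A.filter fun w => w ≠ v ∧ w.2 = v.2).card, (A.filter fun w => w ≠ v ∧ w.1 = v.1).card) ∉ Z

/-- The Young domination number with latency `L`: the least size of a set of vertices from which
`L` steps of the dynamics reach all vertices. -/
noncomputable def gam (L : ℕ) (Z : Set (ℕ × ℕ)) (m n : ℕ) : ℕ :=
  sInf {c | ∃ A : Finset (Fin n × Fin m), (step Z)^[L] A = univ ∧ A.card = c}

end Pool.Agent.R551.YD
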