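import Pool.Agent.R551.YD.Core

/-!
# The dependence of the dynamic programme on the numbers of rows and columns
-/

namespace Pool.Agent.R551.YD

/-- The part of the cost that does not depend on the number of rows: at time `s + 1` all rows have
`X` members, having started with `p` members each. -/
def E (v h : ℕ → ℕ) (a b : ℕ) (s p X : ℕ) : ℕ :=
  match s with
  | 0 => if X ≤ p then 0 else X * v p
  | s + 1 => min (E v h a b s p X) (mn a fun x => E v h a b s p x + D h v b a (s + 1) X (v x))

theorem D_eq_E (v h : ℕ → ℕ) (a b : ℕ) (s : ℕ) : ∀ k X : ℕ, X ≤ a →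
    D v h a b (s + 1) k X = mn a (fun p => k * p + E v h a b s p X) := by
  induction s with
  | zero =>
    intro k X hX
    apply Nat.le_antisymm
    · rw [le_mn]
      intro p hp
      simp only [D, E]
      split_ifs with h
      · exact (min_le_left _ _).trans (Nat.mul_le_mul_left _ h)
      · exact (min_le_right _ _).trans (mn_le hp)
    · simp only [D, E]
      refine le_min ?_ ?_
      · refine (mn_le hX).trans ?_
        simp
      · rw [le_mn]
        intro x hx
        by_cases h : X ≤ x
        · refine (mn_le hx).trans ?_
          rw [if_pos h]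
          omega
        · refine (mn_le hx).trans ?_
          rw [if_neg h]
  | succ s ih =>
    intro k X hX
    apply Nat.le_antisymm
    · rw [le_mn]
      intro p hp
      simp only [E]
      rcases min_choice (E v h a b s p X)
        (mn a fun x => E v h a b s p x + D h v b a (s + 1) X (v x)) with hm | hm
      · rw [hm]
        rw [D]
        refine (min_le_left _ _).trans ?_
        rw [ih k X hX]
        exact mn_le hp
      · rw [hm]
        obtain ⟨x, hx, hx'⟩ := mn_attained a fun x => E v h a b s p x + D h v b a (s + 1) X (v x)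
        rw [hx', D]
        refine (min_le_right _ _).trans ((mn_le hx).trans ?_)
        have h1 : D v h a b (s + 1) k x ≤ k * p + E v h a b s p x := by
          rw [ih k x hx]
          exact mn_le hp
        omega
    · rw [D]
      refine le_min ?_ ?_
      · rw [ih k X hX]
        refine mn_mono fun p _ => ?_
        rw [E]
        have := min_le_left (E v h a b s p X)
          (mn a fun x => E v h a b s p x + D h v b a (s + 1) X (v x))
        omega
      · rw [le_mn]
        intro x hx
        rw [ih k x hx]
        obtain ⟨p, hp, hp'⟩ := mn_attained a fun p => k * p + E v h a b s p x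
        rw [hp']
        refine (mn_le hp).trans ?_
        have h1 : E v h a b (s + 1) p X ≤ E v h a b s p x + D h v b a (s + 1) X (v x) := by
          rw [E]
          exact (min_le_right _ _).trans (mn_le hx)
        omega

/-- The constant terms. -/
def Kc (v h : ℕ → ℕ) (a b : ℕ) (s p q : ℕ) : ℕ :=
  mn a fun x => E v h a b s p x + E h v b a s q (v x)

theorem D_drop {v h : ℕ → ℕ} {a b : ℕ} (s k n : ℕ) (ha : a ≤ n) (hv : v a = 0) :
    D v h a b (s + 1) k n = mn a fun x => D v h a b s k x + D h v b a s n (v x) := by
  rw [D]
  apply Nat.le_antisymm (min_le_right _ _)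
  refine le_min ?_ le_rfl
  refine (mn_le le_rfl).trans ?_
  have h1 : D h v b a s n (v a) = 0 := by
    have := D_le_prod s h v b a n (v a)
    rw [hv] at this ⊢
    simpa using this
  rw [h1, add_zero]
  exact D_mono _ _ _ _ _ _ _ _ _ le_rfl ha

theorem D_one {v h : ℕ → ℕ} {a b : ℕ} (m n : ℕ) (ha : a ≤ n) (hv : v a = 0) :
    D v h a b 1 m n = mn a fun x => m * x + n * v x := by
  rw [D_drop 0 m n ha hv]
  rfl

/-- The form of the estimate for latency at least two. -/
theorem D_form {v h : ℕ → ℕ} {a b : ℕ} (s m n : ℕ) (ha : a ≤ n) (hv : v a = 0)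
    (hvb : ∀ x, v x ≤ b) :
    D v h a b (s + 2) m n = mn a fun p => mn b fun q => m * p + n * q + Kc v h a b s p q := by
  rw [D_drop (s + 1) m n ha hv]
  apply Nat.le_antisymm
  · rw [le_mn]
    intro p hp
    rw [le_mn]
    intro q hq
    obtain ⟨x, hx, hx'⟩ := mn_attained a fun x => E v h a b s p x + E h v b a s q (v x)
    rw [Kc, hx']
    refine (mn_le hx).trans ?_
    have h1 : D v h a b (s + 1) m x ≤ m * p + E v h a b s p x := by
      rw [D_eq_E v h a b s m x hx]
      exact mn_le hp
    have h2 : D h v b a (s + 1) n (v x) ≤ n * q + E h v b a s q (v x) := by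
      rw [D_eq_E h v b a s n (v x) (hvb x)]
      exact mn_le hq
    omega
  · rw [le_mn]
    intro x hx
    rw [D_eq_E v h a b s m x hx, D_eq_E h v b a s n (v x) (hvb x)]
    obtain ⟨p, hp, hp'⟩ := mn_attained a fun p => m * p + E v h a b s p x
    obtain ⟨q, hq, hq'⟩ := mn_attained b fun q => n * q + E h v b a s q (v x)
    rw [hp', hq']
    refine (mn_le hp).trans ((mn_le hq).trans ?_)
    have h1 : Kc v h a b s p q ≤ E v h a b s p x + E h v b a s q (v x) := by
      rw [Kc]
      exact mn_le hx
    omega

end Pool.Agent.R551.YD
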