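import Pool.Agent.R551.YD.AlgoPoly

/-!
# Inputs and the running time
-/

namespace Pool.Agent.R551.YD

open Pool.Agent.NPC
open scoped Classical

/-- The input for the latency `L` (in unary) and a zero-set `Z` inside `R_{a,b}`: the list of its
`a` column heights, and `b` in unary. -/
noncomputable def inp (L : ℕ) (Z : Set (ℕ × ℕ)) (a b : ℕ) : Inp :=
  (List.replicate L (),
    (List.range a).map fun x => ((Finset.range b).filter fun y => (x, y) ∈ Z).card,
    List.replicate b ())

theorem init_seg {p : ℕ → Prop} {b : ℕ} (h1 : ∀ y, p y → y < b)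
    (h2 : ∀ y y', y' ≤ y → p y → p y') (y : ℕ) :
    p y ↔ y < ((Finset.range b).filter p).card := by
  constructor
  · intro hy
    have : Finset.range (y + 1) ⊆ (Finset.range b).filter p := by
      intro z hz
      rw [Finset.mem_range] at hz
      have hz' := h2 y z (by omega) hy
      rw [Finset.mem_filter, Finset.mem_range]
      exact ⟨h1 z hz', hz'⟩
    have := Finset.card_le_card this
    rw [Finset.card_range] at this
    omega
  · intro hy
    by_contra hn
    have : (Finset.range b).filter p ⊆ Finset.range y := by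
      intro z hz
      rw [Finset.mem_filter] at hz
      rw [Finset.mem_range]
      by_contra hzy
      exact hn (h2 z y (by omega) hz.2)
    have := Finset.card_le_card this
    rw [Finset.card_range] at this
    omega

/-- The column heights. -/
noncomputable def hv (Z : Set (ℕ × ℕ)) (a b x : ℕ) : ℕ :=
  if x < a then ((Finset.range b).filter fun y => (x, y) ∈ Z).card else 0

/-- The row lengths. -/
noncomputable def hh (Z : Set (ℕ × ℕ)) (a b y : ℕ) : ℕ :=
  (((List.range a).map fun x => ((Finset.range b).filter fun y => (x, y) ∈ Z).card).filter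
    fun t => decide (y < t)).length

theorem prof_of {Z : Set (ℕ × ℕ)} {a b : ℕ} (hZ : IsLowerSet Z)
    (hab : ∀ p ∈ Z, p.1 < a ∧ p.2 < b) : Prof Z (hv Z a b) (hh Z a b) a b := by
  have hv1 : ∀ x y, (x, y) ∈ Z ↔ y < hv Z a b x := by
    intro x y
    unfold hv
    split_ifs with hx
    · exact init_seg (p := fun y => (x, y) ∈ Z) (fun y hy => (hab _ hy).2)
        (fun y y' h hy => hZ (show ((x, y') : ℕ × ℕ) ≤ (x, y) from ⟨le_rfl, h⟩) hy) y
    · constructor
      · intro h
        exact absurd (hab _ h).1 hx
      · intro h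
        omega
  have hh1 : ∀ y, hh Z a b y = ((Finset.range a).filter fun x => (x, y) ∈ Z).card := by
    intro y
    unfold hh
    rw [List.filter_map, List.length_map]
    have e1 : ((Finset.range a).filter fun x => (x, y) ∈ Z) =
        ((Finset.range a).filter fun x =>
          y < ((Finset.range b).filter fun y => (x, y) ∈ Z).card) := by
      refine Finset.filter_congr fun x hx => ?_
      rw [hv1 x y, hv, if_pos (Finset.mem_range.1 hx)]
    rw [e1]
    rfl
  refine ⟨hv1, fun x y => ?_, fun x => ?_, fun y => ?_⟩
  · rw [hh1]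
    exact init_seg (p := fun x => (x, y) ∈ Z) (fun x hx => (hab _ hx).1)
        (fun x x' h hx => hZ (show ((x', y) : ℕ × ℕ) ≤ (x, y) from ⟨h, le_rfl⟩) hx) x
  · unfold hv
    split_ifs
    · refine (Finset.card_filter_le _ _).trans ?_
      rw [Finset.card_range]
    · exact Nat.zero_le _
  · rw [hh1]
    refine (Finset.card_filter_le _ _).trans ?_
    rw [Finset.card_range]

theorem profs_inp (L : ℕ) (Z : Set (ℕ × ℕ)) (a b : ℕ) :
    profs (inp L Z a b) = ((List.range (a + 1)).map (hv Z a b), (List.range (b + 1)).map (hh Z a b)) := by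
  unfold profs inp
  simp only [List.length_replicate]
  refine Prod.ext ?_ ?_
  · simp only
    rw [List.range_succ, List.map_append, List.map_singleton]
    have h1 : hv Z a b a = 0 := by simp [hv]
    rw [h1]
    congr 1
    refine List.map_congr_left fun x hx => ?_
    rw [hv, if_pos (List.mem_range.1 hx)]
  · rfl

theorem sz_replicate_unit (n : ℕ) : sz (List.replicate n ()) = 2 * n + 1 := by
  induction n with
  | zero => rfl
  | succ n ih =>
    rw [List.replicate_succ, sz_list_cons, ih]
    simp
    ring

theorem sz_inp (L : ℕ) (Z : Set (ℕ × ℕ)) (a b : ℕ) (ha : 1 ≤ a) (hb : 1 ≤ b) :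
    (bits (inp L Z a b)).length ≤ (2 * L + 13) * (a * b) := by
  rw [bits_length]
  unfold inp
  rw [sz_pair, sz_pair, sz_replicate_unit, sz_replicate_unit]
  have h1 := sz_le_length_mul
    ((List.range a).map fun x => ((Finset.range b).filter fun y => (x, y) ∈ Z).card) (4 * b + 1)
    (by
      intro t ht
      rw [List.mem_map] at ht
      obtain ⟨x, _, rfl⟩ := ht
      have h2 := sz_nat_le ((Finset.range b).filter fun y => (x, y) ∈ Z).card
      have h3 : ((Finset.range b).filter fun y => (x, y) ∈ Z).card.size ≤
        ((Finset.range b).filter fun y => (x, y) ∈ Z).card := Nat.size_le.2 Nat.lt_two_pow_self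
      have h4 : ((Finset.range b).filter fun y => (x, y) ∈ Z).card ≤ b := by
        refine (Finset.card_filter_le _ _).trans ?_
        rw [Finset.card_range]
      omega)
  rw [List.length_map, List.length_range] at h1
  have h2 : 1 ≤ a * b := Nat.one_le_iff_ne_zero.2 (Nat.mul_ne_zero (by omega) (by omega))
  have h3 : a ≤ a * b := Nat.le_mul_of_pos_right _ hb
  have h4 : b ≤ a * b := Nat.le_mul_of_pos_left _ ha
  have h5 : 2 * L ≤ 2 * L * (a * b) := Nat.le_mul_of_pos_right _ h2
  have h6 : a * (4 * b + 1 + 1) + 1 = 4 * (a * b) + 2 * a + 1 := by ring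
  have h7 : (2 * L + 13) * (a * b) = 2 * L * (a * b) + 13 * (a * b) := by ring
  omega

theorem eval_le_pow (p : Polynomial ℕ) {x : ℕ} (hx : 1 ≤ x) :
    p.eval x ≤ p.eval 1 * x ^ p.natDegree := by
  rw [Polynomial.eval_eq_sum_range, Polynomial.eval_eq_sum_range, Finset.sum_mul]
  refine Finset.sum_le_sum fun i hi => ?_
  rw [Finset.mem_range] at hi
  rw [one_pow, mul_one]
  exact Nat.mul_le_mul_left _ (Nat.pow_le_pow_right hx (by omega))

theorem algo_length (i : Inp) {a b : ℕ} (h1 : (profs i).1.length = a + 1)
    (h2 : (profs i).2.length = b + 1) : (algo i).length ≤ (a + 1) * (b + 1) := by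
  have hpos : 1 ≤ (a + 1) * (b + 1) := Nat.one_le_iff_ne_zero.2 (by positivity)
  unfold algo
  obtain ⟨L, r⟩ := i
  rcases L with _ | ⟨u, _ | ⟨u', L⟩⟩
  · exact hpos
  · simp only [List.length_map, List.length_range, h1]
    exact Nat.le_mul_of_pos_right _ (by omega)
  · simp only [outp, List.length_flatMap, List.length_map, List.length_range, h1, h2,
      List.map_const', List.sum_replicate, smul_eq_mul, le_refl]

/-- A polynomial-time function on bit strings that realises a polynomial-time function. -/
theorem realise {α β : Type} [TEnc α] [TEnc β] [TDec α] {F : α → β} (hF : NPC.Poly F) :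
    ∃ f : List Bool → List Bool, PolyTime f ∧ ∀ i, f (bits i) = bits (F i) := by
  have h1 := polyTime_opt (NPC.Poly.optMap (o := unbits α) (f := fun _ a => F a)
      poly_unbits (hF.comp (NPC.Poly.snd NPC.Poly.id)))
  refine ⟨_, h1, fun i => ?_⟩
  rw [unbits_bits]
  rfl

end Pool.Agent.R551.YD
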