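import Pool.Agent.R551.YD.Algo
import Pool.Agent.NPC.Dec

/-!
# Parts of the algorithm run in polynomial time
-/

namespace Pool.Agent.R551.YD

open Pool.Agent.NPC

section

variable {α : Type} [TEnc α]

theorem poly_lmin {l : α → List ℕ} (hl : NPC.Poly l) : NPC.Poly (fun a => lmin (l a)) := by
  obtain ⟨r, hr⟩ := hl.sz_le
  have hh : NPC.Poly (fun a => (l a).headD 0) :=
    (NPC.Poly.head?_getD hl 0).congr fun a => by cases l a <;> rfl
  refine NPC.Poly.foldr (F := fun _ x s => min x s) hl hh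
    (NPC.Poly.min (NPC.Poly.fst (NPC.Poly.snd NPC.Poly.id)) (NPC.Poly.snd (NPC.Poly.snd NPC.Poly.id)))
    (Polynomial.C 2 * r + Polynomial.C 2) ?_
  intro a k _
  have h1 : ((l a).drop k).foldr (fun x s => min x s) ((l a).headD 0) ≤ (l a).headD 0 :=
    (le_foldr_min.1 le_rfl).1
  have h2 := sz_nat_mono_le h1
  have h3 : sz ((l a).headD 0) ≤ sz (l a) + 1 := by
    cases l a with
    | nil => decide
    | cons b t => simp; omega
  have h4 := hr a
  simp only [Polynomial.eval_add, Polynomial.eval_mul, Polynomial.eval_C]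
  omega

theorem poly_updRow {vs : α → List ℕ} {T : α → List (List ℕ)} {row : α → List ℕ}
    (hvs : NPC.Poly vs) (hT : NPC.Poly T) (hrow : NPC.Poly row) :
    NPC.Poly (fun a => updRow (vs a) (T a) (row a)) := by
  refine NPC.Poly.map (F := fun a X => min ((row a).getD X 0)
    (lmin ((List.range (vs a).length).map fun x => (row a).getD x 0 +
      ((T a).getD X []).getD ((vs a).getD x 0) 0))) (NPC.Poly.range_length hvs) ?_
  refine NPC.Poly.min (NPC.Poly.getD (hrow.comp (NPC.Poly.fst NPC.Poly.id)) (NPC.Poly.snd NPC.Poly.id) (NPC.Poly.const 0)) ?_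
  refine poly_lmin (NPC.Poly.map (F := fun (p : α × ℕ) x => (row p.1).getD x 0 +
      ((T p.1).getD p.2 []).getD ((vs p.1).getD x 0) 0)
      (NPC.Poly.range_length (hvs.comp (NPC.Poly.fst NPC.Poly.id))) ?_)
  have h1 : NPC.Poly (fun q : (α × ℕ) × ℕ => q.1.1) := NPC.Poly.fst (NPC.Poly.fst NPC.Poly.id)
  have h2 : NPC.Poly (fun q : (α × ℕ) × ℕ => q.1.2) := NPC.Poly.snd (NPC.Poly.fst NPC.Poly.id)
  have h3 : NPC.Poly (fun q : (α × ℕ) × ℕ => q.2) := NPC.Poly.snd NPC.Poly.id
  exact NPC.Poly.add (NPC.Poly.getD (hrow.comp h1) h3 (NPC.Poly.const 0))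
    (NPC.Poly.getD (NPC.Poly.getD (hT.comp h1) h2 (NPC.Poly.const []))
      (NPC.Poly.getD (hvs.comp h1) h3 (NPC.Poly.const 0)) (NPC.Poly.const 0))

theorem poly_mapRow {vs : α → List ℕ} {T U : α → List (List ℕ)}
    (hvs : NPC.Poly vs) (hT : NPC.Poly T) (hU : NPC.Poly U) :
    NPC.Poly (fun a => (U a).map (updRow (vs a) (T a))) :=
  NPC.Poly.map (F := fun a row => updRow (vs a) (T a) row) hU
    (poly_updRow (hvs.comp (NPC.Poly.fst NPC.Poly.id)) (hT.comp (NPC.Poly.fst NPC.Poly.id)) (NPC.Poly.snd NPC.Poly.id))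

theorem poly_rmul {u w : α → List ℕ} (hu : NPC.Poly u) (hw : NPC.Poly w) :
    NPC.Poly (fun a => rmul (u a) (w a)) := by
  refine NPC.Poly.map (F := fun a k => (List.range (w a).length).map fun X => k * X)
    (NPC.Poly.range_length hu) ?_
  exact NPC.Poly.map (F := fun (p : α × ℕ) X => p.2 * X)
    (NPC.Poly.range_length (hw.comp (NPC.Poly.fst NPC.Poly.id)))
    (NPC.Poly.mul (NPC.Poly.snd (NPC.Poly.fst NPC.Poly.id)) (NPC.Poly.snd NPC.Poly.id))

theorem poly_ebase {vs : α → List ℕ} (hvs : NPC.Poly vs) :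
    NPC.Poly (fun a => ebase (vs a)) := by
  refine NPC.Poly.map (F := fun a p => (List.range (vs a).length).map fun X =>
    if X ≤ p then 0 else X * (vs a).getD p 0) (NPC.Poly.range_length hvs) ?_
  have h1 : NPC.Poly (fun q : (α × ℕ) × ℕ => q.1.1) := NPC.Poly.fst (NPC.Poly.fst NPC.Poly.id)
  have h2 : NPC.Poly (fun q : (α × ℕ) × ℕ => q.1.2) := NPC.Poly.snd (NPC.Poly.fst NPC.Poly.id)
  have h3 : NPC.Poly (fun q : (α × ℕ) × ℕ => q.2) := NPC.Poly.snd NPC.Poly.id
  exact NPC.Poly.map (F := fun (p : α × ℕ) X => if X ≤ p.2 then 0 else X * (vs p.1).getD p.2 0)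
    (NPC.Poly.range_length (hvs.comp (NPC.Poly.fst NPC.Poly.id)))
    (NPC.Poly.ite (NPC.Poly.decide_le h3 h2) (NPC.Poly.const 0)
      (NPC.Poly.mul h3 (NPC.Poly.getD (hvs.comp h1) h2 (NPC.Poly.const 0))))

end

theorem poly_base : NPC.Poly base := by
  have h1 : NPC.Poly (fun w : List ℕ × List ℕ => w.1) := NPC.Poly.fst NPC.Poly.id
  have h2 : NPC.Poly (fun w : List ℕ × List ℕ => w.2) := NPC.Poly.snd NPC.Poly.id
  exact NPC.Poly.pair
    (NPC.Poly.append (poly_mapRow h1 (poly_rmul h1 h2) (poly_rmul h2 h1)) (poly_ebase h1))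
    (NPC.Poly.append (poly_mapRow h2 (poly_rmul h2 h1) (poly_rmul h1 h2)) (poly_ebase h2))

theorem poly_stepSt : NPC.Poly (fun p : (List ℕ × List ℕ) × (List (List ℕ) × List (List ℕ)) =>
    stepSt p.1 p.2) := by
  have h1 : NPC.Poly (fun p : (List ℕ × List ℕ) × (List (List ℕ) × List (List ℕ)) => p.1.1) :=
    NPC.Poly.fst (NPC.Poly.fst NPC.Poly.id)
  have h2 : NPC.Poly (fun p : (List ℕ × List ℕ) × (List (List ℕ) × List (List ℕ)) => p.1.2) :=
    NPC.Poly.snd (NPC.Poly.fst NPC.Poly.id)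
  have h3 : NPC.Poly (fun p : (List ℕ × List ℕ) × (List (List ℕ) × List (List ℕ)) => p.2.1) :=
    NPC.Poly.fst (NPC.Poly.snd NPC.Poly.id)
  have h4 : NPC.Poly (fun p : (List ℕ × List ℕ) × (List (List ℕ) × List (List ℕ)) => p.2.2) :=
    NPC.Poly.snd (NPC.Poly.snd NPC.Poly.id)
  exact NPC.Poly.pair (poly_mapRow h1 h4 h3) (poly_mapRow h2 h3 h4)

/-! ### Sizes of the intermediate tables -/

/-- Entrywise comparison of lists. -/
abbrev LeL (l l' : List ℕ) : Prop := List.Forall₂ (· ≤ ·) l l'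

/-- Entrywise comparison of tables. -/
abbrev LeT (T T' : List (List ℕ)) : Prop := List.Forall₂ LeL T T'

theorem forall₂_trans {β : Type} {R : β → β → Prop} (hR : ∀ a b c, R a b → R b c → R a c) :
    ∀ {l₁ l₂ l₃ : List β}, List.Forall₂ R l₁ l₂ → List.Forall₂ R l₂ l₃ → List.Forall₂ R l₁ l₃
  | [], _, _, List.Forall₂.nil, h => h
  | _ :: _, _, _, List.Forall₂.cons h1 h2, List.Forall₂.cons h3 h4 =>
    List.Forall₂.cons (hR _ _ _ h1 h3) (forall₂_trans hR h2 h4)

theorem forall₂_refl {β : Type} {R : β → β → Prop} (hR : ∀ a, R a a) :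
    ∀ l : List β, List.Forall₂ R l l
  | [] => List.Forall₂.nil
  | a :: l => List.Forall₂.cons (hR a) (forall₂_refl hR l)

theorem LeL.trans {a b c : List ℕ} (h : LeL a b) (h' : LeL b c) : LeL a c :=
  forall₂_trans (R := fun x y : ℕ => x ≤ y) (fun _ _ _ => le_trans) h h'

theorem LeT.trans {a b c : List (List ℕ)} (h : LeT a b) (h' : LeT b c) : LeT a c :=
  forall₂_trans (R := LeL) (fun _ _ _ => LeL.trans) h h'

theorem LeT.refl (a : List (List ℕ)) : LeT a a :=
  forall₂_refl (fun _ => forall₂_refl (fun _ => le_rfl) _) _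

theorem sz_LeL {l l' : List ℕ} (h : LeL l l') : sz l ≤ 2 * sz l' := by
  induction h with
  | nil => simp
  | cons h _ ih =>
    have := sz_nat_mono_le h
    simp only [sz_list_cons]
    omega

theorem sz_LeT {l l' : List (List ℕ)} (h : LeT l l') : sz l ≤ 2 * sz l' := by
  induction h with
  | nil => simp
  | cons h _ ih =>
    have := sz_LeL h
    simp only [sz_list_cons]
    omega

theorem updRow_length (vs : List ℕ) (T : List (List ℕ)) (row : List ℕ) :
    (updRow vs T row).length = vs.length := by simp [updRow]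

theorem LeL_updRow {vs : List ℕ} (T : List (List ℕ)) {row : List ℕ}
    (h : row.length = vs.length) : LeL (updRow vs T row) row := by
  rw [LeL, List.forall₂_iff_get]
  refine ⟨by rw [updRow_length, h], fun i h1 h2 => ?_⟩
  unfold updRow
  simp only [List.get_eq_getElem, List.getElem_map, List.getElem_range]
  refine (min_le_left _ _).trans (le_of_eq ?_)
  rw [List.getD_eq_getElem?_getD, List.getElem?_eq_getElem h2]
  rfl

/-- All rows have the given length. -/
def Wd (c : ℕ) (T : List (List ℕ)) : Prop := ∀ row ∈ T, row.length = c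

theorem Wd_map (vs : List ℕ) (T U : List (List ℕ)) : Wd vs.length (U.map (updRow vs T)) := by
  intro row hrow
  rw [List.mem_map] at hrow
  obtain ⟨r, _, rfl⟩ := hrow
  exact updRow_length _ _ _

theorem Wd_ebase (vs : List ℕ) : Wd vs.length (ebase vs) := by
  intro row hrow
  unfold ebase at hrow
  rw [List.mem_map] at hrow
  obtain ⟨r, _, rfl⟩ := hrow
  simp

theorem Wd_append {c : ℕ} {T U : List (List ℕ)} (h : Wd c T) (h' : Wd c U) : Wd c (T ++ U) := by
  intro row hrow
  rcases List.mem_append.1 hrow with hr | hr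
  · exact h _ hr
  · exact h' _ hr

theorem LeT_map {vs : List ℕ} (T : List (List ℕ)) : ∀ {U : List (List ℕ)}, Wd vs.length U →
    LeT (U.map (updRow vs T)) U
  | [], _ => List.Forall₂.nil
  | row :: _, h => List.Forall₂.cons (LeL_updRow T (h row List.mem_cons_self))
      (LeT_map T fun r hr => h r (List.mem_cons_of_mem _ hr))

theorem iter_inv (w : List ℕ × List ℕ) (k : ℕ) :
    LeT ((stepSt w)^[k] (base w)).1 (base w).1 ∧ LeT ((stepSt w)^[k] (base w)).2 (base w).2 ∧
      Wd w.1.length ((stepSt w)^[k] (base w)).1 ∧ Wd w.2.length ((stepSt w)^[k] (base w)).2 := by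
  induction k with
  | zero =>
    refine ⟨LeT.refl _, LeT.refl _, ?_, ?_⟩
    · exact Wd_append (Wd_map _ _ _) (Wd_ebase _)
    · exact Wd_append (Wd_map _ _ _) (Wd_ebase _)
  | succ k ih =>
    rw [Function.iterate_succ_apply']
    obtain ⟨h1, h2, h3, h4⟩ := ih
    exact ⟨(LeT_map _ h3).trans h1, (LeT_map _ h4).trans h2, Wd_map _ _ _, Wd_map _ _ _⟩

theorem sz_prod {α β : Type} [TEnc α] [TEnc β] (p : α × β) : sz p = sz p.1 + sz p.2 + 1 := by
  obtain ⟨a, b⟩ := p
  exact sz_pair a b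

end Pool.Agent.R551.YD
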